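import Pool.Agent.V5helper27.BM.Stm

set_option autoImplicit false

open Complex Filter Topology Set Metric

namespace Pool.Agent.V5helper3.BM

open Pool.Agent.V5helper27.BM

theorem isSig_id : IsSig (fun z => z) (fun _ => 0) := by
  refine ⟨differentiableOn_id, fun x _ y _ h => h, ⟨0, ?_⟩, differentiableOn_const _, ?_, tendsto_const_nhds⟩
  · simp only [sub_self]; exact tendsto_const_nhds
  · intro z _
    simp

theorem isSig_Hs (l Φ : ℂ → ℂ) (A : ℝ) (hd : Dat l Φ A) (m : ℕ) (hm : 2 ≤ m) (n : ℕ) :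
    ∃ ψ : ℂ → ℂ, IsSig ψ (Hs l Φ A m n) := by
  induction n with
  | zero => exact ⟨_, isSig_id⟩
  | succ n ih =>
    obtain ⟨ψ, hψ⟩ := ih
    have h2 : 2 ≤ m ^ (n + 1) := le_trans hm (Nat.le_self_pow (by omega) m)
    exact hd.tr (m ^ (n + 1)) h2 ψ _ hψ

/-- one step -/
theorem step (hl : S_lip) (l Φ : ℂ → ℂ) (A : ℝ) (hd : Dat l Φ A) (m : ℕ) (hm : 2 ≤ m) :
    ∃ K : ℝ, 0 ≤ K ∧ ∀ (n : ℕ) (z : ℂ), 1 < ‖z‖ → 1 ≤ Real.log ‖z‖ * (m : ℝ) ^ (n + 1) →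
      ‖Hs l Φ A m (n + 1) z - Hs l Φ A m n z‖ ≤ K / (Real.log ‖z‖ * (m : ℝ) ^ (n + 1)) := by
  obtain ⟨C, hC⟩ := hd.dec
  have hC0 : 0 ≤ C := by
    have h := (hC 2 (by simp)).1
    have h2 : (0:ℝ) ≤ C / ‖(2:ℂ)‖ := le_trans (norm_nonneg _) h
    rw [show ‖(2:ℂ)‖ = 2 by simp] at h2
    linarith
  have hA := hd.A1
  refine ⟨3 * A + 5 * C, by linarith, fun n z hz hy => ?_⟩
  obtain ⟨ψ, hψ⟩ := isSig_Hs l Φ A hd m hm n
  set M : ℕ := m ^ (n + 1) with hM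
  have hMr : (m : ℝ) ^ (n + 1) = (M : ℝ) := by rw [hM]; push_cast; rfl
  rw [hMr] at hy ⊢
  have hM1 : 1 ≤ M := Nat.one_le_pow _ _ (by omega)
  have hMpos : (0:ℝ) < M := by exact_mod_cast hM1
  have hM1r : (1:ℝ) ≤ M := by exact_mod_cast hM1
  have hz0 : z ≠ 0 := by
    intro h; rw [h] at hz; simp at hz; linarith
  have hznorm : 0 < ‖z‖ := by linarith
  set y : ℝ := Real.log ‖z‖ with hydef
  have hy0 : 0 < y := Real.log_pos hz
  have hzM : ‖z ^ M‖ = Real.exp (y * M) := by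
    rw [norm_pow, mul_comm, Real.exp_nat_mul, hydef, Real.exp_log hznorm]
  have hexp : y * M + 1 ≤ Real.exp (y * M) := Real.add_one_le_exp _
  have hu2 : 2 ≤ ‖z ^ M‖ := by rw [hzM]; linarith
  obtain ⟨hl1, hΦ1⟩ := hC (z ^ M) hu2
  have hyM : 0 < y * M := mul_pos hy0 hMpos
  have hCe : C / ‖z ^ M‖ ≤ C / (y * M) := by
    apply div_le_div_of_nonneg_left hC0 hyM
    rw [hzM]; linarith
  have hCe2 : C / ‖z ^ M‖ ≤ C := by
    apply div_le_self hC0; linarith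
  -- the Lipschitz step
  set ζ : ℂ := Complex.log z with hζ
  have hez : cexp ζ = z := Complex.exp_log hz0
  have hre : ζ.re = y := by rw [hζ, Complex.log_re]
  set w : ℂ := (A + l (z ^ M)) / M with hw
  have hwre : 0 ≤ w.re := by
    have h1 := hd.low (z ^ M) (by show 1 < ‖z ^ M‖; linarith)
    have h2 : w.re = (A + (l (z ^ M)).re) / M := by
      rw [hw, ← Complex.ofReal_natCast, Complex.div_ofReal_re]
      simp
    rw [h2]
    apply div_nonneg _ hMpos.le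
    linarith
  have hwn : ‖w‖ ≤ (A + C) / M := by
    rw [hw, norm_div, Complex.norm_natCast]
    apply div_le_div_of_nonneg_right _ hMpos.le
    calc ‖(A:ℂ) + l (z ^ M)‖ ≤ ‖(A:ℂ)‖ + ‖l (z ^ M)‖ := norm_add_le _ _
      _ ≤ A + C := by
        rw [Complex.norm_real, Real.norm_of_nonneg (by linarith)]
        linarith
  have hlip := hl ψ _ hψ y hy0 (w + ζ) ζ (by rw [Complex.add_re, hre]; linarith) (by rw [hre])
  rw [Complex.exp_add, hez, add_sub_cancel_right] at hlip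
  have hlip2 : ‖Hs l Φ A m n (cexp w * z) - Hs l Φ A m n z‖ ≤ 3 * (A + C) / (y * M) := by
    refine le_trans hlip ?_
    calc 3 / y * ‖w‖ ≤ 3 / y * ((A + C) / M) := by gcongr
      _ = 3 * (A + C) / (y * M) := by field_simp
  have hTH : Hs l Φ A m (n + 1) z = Hs l Φ A m n (cexp w * z) +
      (Φ (z ^ M) - (1 - 1 / (M : ℂ)) * l (z ^ M)) := rfl
  have hfac : ‖(1 - 1 / (M : ℂ)) * l (z ^ M)‖ ≤ C / (y * M) := by
    rw [norm_mul]
    have h1 : ‖(1 - 1 / (M : ℂ))‖ ≤ 1 := by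
      have : (1 - 1 / (M : ℂ)) = ((1 - 1 / (M:ℝ) : ℝ) : ℂ) := by push_cast; ring
      rw [this, Complex.norm_real, Real.norm_of_nonneg]
      · have : 0 < 1 / (M:ℝ) := by positivity
        linarith
      · have : 1 / (M:ℝ) ≤ 1 := by rw [div_le_one hMpos]; exact hM1r
        linarith
    calc ‖(1 - 1 / (M : ℂ))‖ * ‖l (z ^ M)‖ ≤ 1 * ‖l (z ^ M)‖ := by gcongr
      _ ≤ C / (y * M) := by rw [one_mul]; linarith
  have : Hs l Φ A m (n + 1) z - Hs l Φ A m n z = (Hs l Φ A m n (cexp w * z) - Hs l Φ A m n z) +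
      (Φ (z ^ M) - (1 - 1 / (M : ℂ)) * l (z ^ M)) := by rw [hTH]; ring
  rw [this]
  calc ‖(Hs l Φ A m n (cexp w * z) - Hs l Φ A m n z) + (Φ (z ^ M) - (1 - 1 / (M : ℂ)) * l (z ^ M))‖
      ≤ ‖Hs l Φ A m n (cexp w * z) - Hs l Φ A m n z‖ + (‖Φ (z ^ M)‖ + ‖(1 - 1 / (M : ℂ)) * l (z ^ M)‖) :=
        (norm_add_le _ _).trans (by gcongr; exact norm_sub_le _ _)
    _ ≤ 3 * (A + C) / (y * M) + (C / (y * M) + C / (y * M)) := by
        gcongr
        linarith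
    _ = (3 * A + 5 * C) / (y * M) := by ring

/-- geometric decrease from `N` on -/
theorem geo (hl : S_lip) (l Φ : ℂ → ℂ) (A : ℝ) (hd : Dat l Φ A) (m : ℕ) (hm : 2 ≤ m) :
    ∃ K : ℝ, 0 ≤ K ∧ ∀ (N : ℕ) (z : ℂ), 1 < ‖z‖ → 1 ≤ Real.log ‖z‖ * (m : ℝ) ^ (N + 1) → ∀ j : ℕ,
      dist (Hs l Φ A m (N + j) z) (Hs l Φ A m (N + (j + 1)) z) ≤ K * (1 / 2) ^ j := by
  obtain ⟨K, hK0, hK⟩ := step hl l Φ A hd m hm
  refine ⟨K, hK0, fun N z hz hN j => ?_⟩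
  have hm2 : (2:ℝ) ≤ m := by exact_mod_cast hm
  have hj : (2:ℝ) ^ j ≤ (m:ℝ) ^ j := by gcongr
  have hj2 : (1:ℝ) ≤ (2:ℝ) ^ j := one_le_pow₀ (by norm_num)
  have h1 : (2:ℝ) ^ j ≤ Real.log ‖z‖ * (m : ℝ) ^ (N + j + 1) := by
    calc (2:ℝ) ^ j ≤ 1 * (m:ℝ) ^ j := by rw [one_mul]; exact hj
      _ ≤ (Real.log ‖z‖ * (m : ℝ) ^ (N + 1)) * (m:ℝ) ^ j := by gcongr
      _ = Real.log ‖z‖ * (m : ℝ) ^ (N + j + 1) := by ring
  have h2 := hK (N + j) z hz (le_trans hj2 h1)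
  rw [dist_comm, dist_eq_norm, ← add_assoc]
  refine h2.trans ?_
  rw [one_div, inv_pow, ← div_eq_mul_inv]
  exact div_le_div_of_nonneg_left hK0 (by positivity) h1

theorem exN (m : ℕ) (hm : 2 ≤ m) (y : ℝ) (hy : 0 < y) : ∃ N : ℕ, 1 ≤ y * (m : ℝ) ^ (N + 1) := by
  have hm2 : (1:ℝ) < m := by exact_mod_cast (by omega : 1 < m)
  obtain ⟨N, hN⟩ := pow_unbounded_of_one_lt (1 / y) hm2
  refine ⟨N, ?_⟩
  have h1 : (m:ℝ) ^ N ≤ (m:ℝ) ^ (N + 1) := pow_le_pow_right₀ hm2.le (by omega)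
  have h2 : 1 / y ≤ (m:ℝ) ^ (N + 1) := hN.le.trans h1
  rw [div_le_iff₀ hy] at h2
  linarith

theorem seql (hl : S_lip) (hc : S_close) : S_seq := by
  intro l Φ A hd m hm
  obtain ⟨K, hK0, hK⟩ := geo hl l Φ A hd m hm
  have hex : ∀ z : ℂ, ∃ a : ℂ, 1 < ‖z‖ → Tendsto (fun n => Hs l Φ A m n z) atTop (𝓝 a) := by
    intro z
    by_cases hz : 1 < ‖z‖
    · obtain ⟨N, hN⟩ := exN m hm (Real.log ‖z‖) (Real.log_pos hz)
      have hcau : CauchySeq (fun j => Hs l Φ A m (N + j) z) :=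
        cauchySeq_of_le_geometric (1 / 2) K (by norm_num) (hK N z hz hN)
      obtain ⟨a, ha⟩ := cauchySeq_tendsto_of_complete hcau
      refine ⟨a, fun _ => ?_⟩
      have h2 : Tendsto (fun j => Hs l Φ A m (j + N) z) atTop (𝓝 a) := by
        simpa [add_comm] using ha
      exact (tendsto_add_atTop_iff_nat (f := fun n => Hs l Φ A m n z) N).1 h2
    · exact ⟨0, fun h => absurd h hz⟩
  choose h hh using hex
  have hlim : ∀ (N : ℕ) (z : ℂ), 1 < ‖z‖ → 1 ≤ Real.log ‖z‖ * (m : ℝ) ^ (N + 1) → ∀ j : ℕ,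
      dist (Hs l Φ A m (N + j) z) (h z) ≤ 2 * K * (1 / 2) ^ j := by
    intro N z hz hN j
    have h2 : Tendsto (fun j => Hs l Φ A m (N + j) z) atTop (𝓝 (h z)) := by
      have := (tendsto_add_atTop_iff_nat (f := fun n => Hs l Φ A m n z) N).2 (hh z hz)
      simpa [add_comm] using this
    have h3 := dist_le_of_le_geometric_of_tendsto (1 / 2) K (by norm_num) (hK N z hz hN) h2 j
    refine h3.trans (le_of_eq ?_)
    ring
  have hunif : ∀ R : ℝ, 1 < R → TendstoUniformlyOn (fun n => Hs l Φ A m n) h atTop {z : ℂ | R ≤ ‖z‖} := by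
    intro R hR
    rw [Metric.tendstoUniformlyOn_iff]
    intro ε hε
    obtain ⟨N, hN⟩ := exN m hm (Real.log R) (Real.log_pos hR)
    have ht : Tendsto (fun j : ℕ => 2 * K * (1 / 2 : ℝ) ^ j) atTop (𝓝 (2 * K * 0)) :=
      (tendsto_pow_atTop_nhds_zero_of_lt_one (by norm_num) (by norm_num)).const_mul _
    rw [mul_zero] at ht
    obtain ⟨J, hJ⟩ := Filter.eventually_atTop.1 (ht.eventually_lt_const hε)
    filter_upwards [Filter.eventually_ge_atTop (N + J)] with n hn z hz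
    have hz' : R ≤ ‖z‖ := hz
    have hz1 : 1 < ‖z‖ := lt_of_lt_of_le hR hz'
    obtain ⟨j, rfl⟩ : ∃ j, n = N + j := ⟨n - N, by omega⟩
    have hlog : Real.log R ≤ Real.log ‖z‖ := Real.log_le_log (by linarith) hz'
    have hN' : 1 ≤ Real.log ‖z‖ * (m : ℝ) ^ (N + 1) := hN.trans (by gcongr)
    rw [dist_comm]
    exact lt_of_le_of_lt (hlim N z hz1 hN' j) (hJ j (by omega))
  choose Ψ hΨ using isSig_Hs l Φ A hd m hm
  obtain ⟨ψ, hψ⟩ := hc Ψ (fun n => Hs l Φ A m n) h hΨ hunif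
  refine ⟨ψ, h, hψ, 2 * K, fun n z hz => ?_⟩
  have hmpos : (0:ℝ) < (m:ℝ) ^ (n + 1) := by
    have : (0:ℝ) < m := by exact_mod_cast (by omega : 0 < m)
    positivity
  have hz1 : 1 < ‖z‖ := by
    rw [hz]
    exact Real.one_lt_exp_iff.2 (by positivity)
  have hN : 1 ≤ Real.log ‖z‖ * (m : ℝ) ^ (n + 1) := by
    rw [hz, Real.log_exp, one_div, inv_mul_cancel₀ hmpos.ne']
  have h3 := hlim n z hz1 hN 0
  rw [add_zero, pow_zero, mul_one, dist_comm, dist_eq_norm] at h3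
  exact h3

end Pool.Agent.V5helper3.BM
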